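import Pool.Agent.H46.RF.Stm

/-!
# Crew RF, part DM1
-/

set_option autoImplicit false

open MeasureTheory Set

namespace H61.RF
open H46.RF H14.ES

/-- the first `n` bits -/
def fb (n : ℕ) (x : ℕ → Bool) : Fin n → Bool := fun i => x i

lemma fb_meas (n : ℕ) : Measurable (fb n) :=
  measurable_pi_iff.2 fun i => measurable_pi_apply (i : ℕ)

lemma fb_pre (n : ℕ) (x : ℕ → Bool) : fb n ⁻¹' {fb n x} = cyl x n := by
  ext y
  simp only [mem_preimage, mem_singleton_iff, cyl, mem_setOf_eq]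
  constructor
  · intro h i hi
    exact congrFun h ⟨i, hi⟩
  · intro h
    funext i
    exact h i i.2

lemma clopen_le (μ ν : Measure (ℕ → Bool)) (h : ∀ r k, μ (cyl r k) ≤ ν (cyl r k)) (n : ℕ)
    (T : Set (Fin n → Bool)) : μ (fb n ⁻¹' T) ≤ ν (fb n ⁻¹' T) := by
  classical
  have h1 : ∀ ρ : Measure (ℕ → Bool), ρ (fb n ⁻¹' T) = ∑ t ∈ T.toFinite.toFinset, ρ (fb n ⁻¹' {t}) := by
    intro ρ
    have h2 := sum_measure_singleton (μ := ρ.map (fb n)) (s := T.toFinite.toFinset)
    rw [Set.Finite.coe_toFinset, Measure.map_apply (fb_meas n) (Set.toFinite T).measurableSet] at h2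
    rw [← h2]
    refine Finset.sum_congr rfl fun t _ => ?_
    rw [Measure.map_apply (fb_meas n) (measurableSet_singleton t)]
  rw [h1 μ, h1 ν]
  refine Finset.sum_le_sum fun t _ => ?_
  have h3 : ∃ x, fb n x = t := by
    refine ⟨fun i => if hi : i < n then t ⟨i, hi⟩ else false, ?_⟩
    funext i
    simp [fb]
  obtain ⟨x, rfl⟩ := h3
  rw [fb_pre]
  exact h x n

lemma open_le (μ ν : Measure (ℕ → Bool)) (h : ∀ r k, μ (cyl r k) ≤ ν (cyl r k))
    (O : Set (ℕ → Bool)) (hO : IsOpen O) : μ O ≤ ν O := by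
  set B : ℕ → Set (ℕ → Bool) := fun n => fb n ⁻¹' {t | fb n ⁻¹' {t} ⊆ O} with hB
  have hBO : ∀ n, B n ⊆ O := by
    intro n x hx
    exact hx rfl
  have hmono : Monotone B := by
    intro n k hnk x hx
    have h1 : fb n ⁻¹' {fb n x} ⊆ O := hx
    have h2 : fb k ⁻¹' {fb k x} ⊆ fb n ⁻¹' {fb n x} := by
      rw [fb_pre, fb_pre]
      intro y hy i hi
      exact hy i (lt_of_lt_of_le hi hnk)
    exact h2.trans h1
  have hU : ⋃ n, B n = O := by
    apply subset_antisymm
    · exact iUnion_subset hBO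
    · intro x hx
      obtain ⟨s, ⟨y, n, rfl⟩, hxs, hsO⟩ :=
        (PiNat.isTopologicalBasis_cylinders (fun _ : ℕ => Bool)).exists_subset_of_mem_open hx hO
      rw [mem_iUnion]
      refine ⟨n, ?_⟩
      show fb n ⁻¹' {fb n x} ⊆ O
      rw [fb_pre]
      refine subset_trans ?_ hsO
      intro z hz i hi
      have h1 : x i = y i := hxs i hi
      rw [← h1]
      exact hz i hi
  rw [← hU, hmono.measure_iUnion]
  refine iSup_le fun n => ?_
  exact (clopen_le μ ν h n _).trans (measure_mono (subset_iUnion B n))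

theorem t_DM1 : S_DM1 := by
  intro U hU h
  set ν : Measure (ℕ → Bool) := (4 : ENNReal) • (mu ℕ).restrict U with hν
  have h1 : ∀ r k, mu ℕ (cyl r k) ≤ ν (cyl r k) := by
    intro r k
    have hc : MeasurableSet (cyl r k) := by
      rw [← fb_pre]
      exact fb_meas k (measurableSet_singleton _)
    rw [hν, Measure.smul_apply, Measure.restrict_apply hc]
    exact h r k
  haveI : IsFiniteMeasure ν := by
    rw [hν]
    exact Measure.smul_finite _ (by norm_num)
  have h2 : mu ℕ Uᶜ ≤ ν Uᶜ := by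
    rw [Set.measure_eq_iInf_isOpen Uᶜ ν]
    refine le_iInf fun O => le_iInf fun hUO => le_iInf fun hO => ?_
    exact (measure_mono hUO).trans (open_le _ _ h1 O hO)
  have h3 : ν Uᶜ = 0 := by
    rw [hν, Measure.smul_apply, Measure.restrict_apply hU.compl]
    simp
  exact le_antisymm (h2.trans h3.le) bot_le

end H61.RF
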